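import Pool.Agent.Q19.JL.Fin2
import Pool.Agent.Q19.SU.Fm

/-!
# MP_4a0cc8_nt: congruences of all large levels with the curves of almost all invariants, all heights

Let `K` be a number field of degree `d`. The invariants `j ≠ 0, 1728` in `K`, of ALL heights, are
ordered by the product `radical j` of the norms of the primes (not dividing six) at which `j` reduces
to `0`, `1728` or `∞`; there are `X ^ (2 / 3 + o(1))` with `radical j ≤ X`. For every `η > 0` all but a
proportion `X ^ (-ν)` of them have the following property. Let `E₀` be ANY elliptic curve over `K` of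
invariant `j` (all twists), `E` ANY elliptic curve over `K` and `n > 61 ^ (8 d + 13)` ANY integer. If
the Galois modules `E[n]` and `E₀[n]` are isomorphic, the product of the norms of the primes (not
dividing six) of bad reduction of `E` is at least `H(j) ^ (1 - η)`, `H` the height relative to `K`.

So there is no `E` with fewer bad primes, of whatever height, congruent to `E₀` modulo some large `n`;
the bound for `n` depends only on the degree of `K`.

Proof. For almost all invariants `j` of all heights almost all of the height of `j` comes from simple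
poles (engine `Pool.Agent.Q19.JL`). If `v` is a simple pole not above a prime at most `8 d + 13`, the
curve `E` has bad reduction at `v`: `n` has a prime factor `p ≥ 8 d + 13` or is divisible by a prime
power `m > 60` of a smaller prime, and good reduction of `E` at `v` would imply `p ∣ v(j) = -1`,
respectively `m ∣ 60 v(j)` (theorems `FM.loc` and `FM.tameM` of helper673, also for `v ∣ p`).
-/

set_option autoImplicit false

open NumberField IsDedekindDomain
open scoped Classical

namespace Pool.Agent.Results.MP_4a0cc8_nt.AllInvariantsAllLevels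

/-- The curve `y² = x³ + Ax + B` over `K`. -/
def curve {K : Type} [Field K] (A B : K) : WeierstrassCurve K := ⟨0, 0, 0, A, B⟩

/-- The group of its points over the algebraic closure of `K`. -/
abbrev Points {K : Type} [Field K] (A B : K) : Type :=
  ((curve A B).baseChange (AlgebraicClosure K)).toAffine.Point

/-- The action of an automorphism `σ` of the algebraic closure over `K` on the points. -/
noncomputable def galois {K : Type} [Field K] (A B : K)
    (σ : AlgebraicClosure K ≃ₐ[K] AlgebraicClosure K) : Points A B →+ Points A B :=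
  WeierstrassCurve.Affine.Point.map (σ : AlgebraicClosure K →ₐ[K] AlgebraicClosure K)

/-- The groups of the points killed by `n` of `y² = x³ + Ax + B` and of `y² = x³ + A'x + B'` are
isomorphic as Galois modules: some map between the groups of points restricts to a bijective
additive map between them which commutes with the Galois group of `K`. -/
def Congruent {K : Type} [Field K] (n : ℕ) (A B A' B' : K) : Prop :=
  ∃ f : Points A B → Points A' B', (∀ P Q, n • P = 0 → n • Q = 0 → f (P + Q) = f P + f Q) ∧
    Set.BijOn f {P | n • P = 0} {Q | n • Q = 0} ∧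
    ∀ (σ : AlgebraicClosure K ≃ₐ[K] AlgebraicClosure K) (P : Points A B), n • P = 0 →
      f (galois A B σ P) = galois A' B' σ (f P)

/-- good reduction at `v`: some Weierstrass equation over `K` of the curve is integral at `v` and
has a discriminant which is a unit at `v` -/
def GoodAt {K : Type} [Field K] [NumberField K] (v : HeightOneSpectrum (𝓞 K))
    (E : WeierstrassCurve K) : Prop :=
  ∃ C : WeierstrassCurve.VariableChange K,
    v.valuation K (C • E).a₁ ≤ 1 ∧ v.valuation K (C • E).a₂ ≤ 1 ∧ v.valuation K (C • E).a₃ ≤ 1 ∧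
    v.valuation K (C • E).a₄ ≤ 1 ∧ v.valuation K (C • E).a₆ ≤ 1 ∧ v.valuation K (C • E).Δ = 1

/-- the product of the norms of the primes not dividing six of bad reduction -/
noncomputable def badProduct {K : Type} [Field K] [NumberField K] (E : WeierstrassCurve K) : ℝ :=
  ∏ᶠ v ∈ {v : HeightOneSpectrum (𝓞 K) | ¬ GoodAt v E ∧ v.valuation K 6 = 1},
    (Ideal.absNorm v.asIdeal : ℝ)

/-- The invariant of `y² = x³ + Ax + B`. -/
noncomputable def jInvariant {K : Type} [Field K] (A B : K) : K :=
  6912 * A ^ 3 / (4 * A ^ 3 + 27 * B ^ 2)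

/-- the product of the norms of the primes not dividing six at which `j` reduces to `0`, `1728` or
`∞` -/
noncomputable def radical {K : Type} [Field K] [NumberField K] (j : K) : ℝ :=
  ∏ᶠ v ∈ {v : HeightOneSpectrum (𝓞 K) | v.valuation K 6 = 1 ∧
    (v.valuation K j ≠ 1 ∨ v.valuation K (j - 1728) ≠ 1)}, (Ideal.absNorm v.asIdeal : ℝ)

/-- the invariants `j ≠ 0, 1728`, of whatever height, with `radical j ≤ X` -/
def Invariants (K : Type) [Field K] [NumberField K] (X : ℝ) : Set K :=
  {j | j ≠ 0 ∧ j ≠ 1728 ∧ radical j ≤ X}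

/-- Congruences of large level with the curves of invariant `j` do not lower the conductor: for every
`E₀ : y² = x³ + Ax + B` of invariant `j`, every elliptic curve `E : y² = x³ + A'x + B'` over `K` and
every `n > 61 ^ (8 [K : ℚ] + 13)` such that `E₀[n]` and `E[n]` are isomorphic, the product of the norms
of the primes not dividing six of bad reduction of `E` is at least `H(j) ^ (1 - η)`. -/
def NoSmallCompanion {K : Type} [Field K] [NumberField K] (η : ℝ) (j : K) : Prop :=
  ∀ A B : K, 4 * A ^ 3 + 27 * B ^ 2 ≠ 0 → jInvariant A B = j →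
    ∀ A' B' : K, 4 * A' ^ 3 + 27 * B' ^ 2 ≠ 0 →
      ∀ n : ℕ, 61 ^ (8 * Module.finrank ℚ K + 13) < n → Congruent n A B A' B' →
        Height.mulHeight₁ j ^ (1 - η) ≤ badProduct (curve A' B')

theorem inv_eq (K : Type) [Field K] [NumberField K] (X : ℝ) :
    Invariants K X = Pool.Agent.Q19.JL.Iv K X := by
  ext j
  constructor
  · rintro ⟨h0, h1, h2⟩
    refine ⟨h0, h1, ?_⟩
    rw [← Pool.Agent.Q19.JL.rad_eq h0 h1]
    exact h2
  · rintro ⟨h0, h1, h2⟩
    refine ⟨h0, h1, ?_⟩
    rw [← Pool.Agent.Q19.JL.rad_eq h0 h1] at h2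
    exact h2

/-- **Theorem.** (1) There are `X ^ (2 / 3 + o(1))` invariants, of all heights, with
`radical j ≤ X`. (2) For every `η > 0` all but a power-saving proportion of them have the property
that congruences of level larger than a constant depending only on the degree of `K` with the curves
of this invariant do not lower the conductor. -/
theorem result (K : Type) [Field K] [NumberField K] :
    (∀ δ : ℝ, 0 < δ → ∃ X₀ : ℝ, ∀ X : ℝ, X₀ ≤ X → (Invariants K X).Finite ∧
      X ^ (2 / 3 - δ) ≤ ((Invariants K X).ncard : ℝ) ∧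
      ((Invariants K X).ncard : ℝ) ≤ X ^ (2 / 3 + δ)) ∧
    (∀ η : ℝ, 0 < η → ∃ ν X₀ : ℝ, 0 < ν ∧ ∀ X : ℝ, X₀ ≤ X →
      (({j | j ∈ Invariants K X ∧ ¬ NoSmallCompanion η j} : Set K).ncard : ℝ) ≤
        X ^ (-ν) * (Invariants K X).ncard) := by
  refine ⟨fun δ hδ => ?_, fun η hη => ?_⟩
  · obtain ⟨X1, hX1, h1⟩ := Pool.Agent.Q19.JL.Iv_upper K δ hδ
    obtain ⟨X2, hX2, h2⟩ := Pool.Agent.Q19.JL.Iv_lower K δ hδ
    refine ⟨max X1 X2, fun X hX => ?_⟩
    rw [inv_eq]
    exact ⟨Pool.Agent.Q19.JL.Iv_fin K (hX1.trans ((le_max_left _ _).trans hX)),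
      h2 X ((le_max_right _ _).trans hX), h1 X ((le_max_left _ _).trans hX)⟩
  · obtain ⟨t, ht0, ht1, ht2⟩ : ∃ t : ℝ, 0 < t ∧ t < 1 ∧ t ≤ η :=
      ⟨min η (1 / 2), lt_min hη (by norm_num), by
        linarith [min_le_right η (1 / 2 : ℝ)], min_le_left _ _⟩
    obtain ⟨ν, X₀, hν, -, h⟩ := Pool.Agent.Q19.SU.gd_prop K (t / 2)
      (2 / t * ∑ v ∈ Pool.Agent.Q19.SU.WS K, Real.log (Pool.Agent.H691R3.Nv v)) (by positivity)
      (by linarith)
    refine ⟨ν, X₀, hν, fun X hX => ?_⟩
    rw [inv_eq]
    refine h X hX _ (fun j hj => hj.1) fun j hj hcon => hj.2 ?_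
    rintro A B hD hAB A' B' hD' n hn ⟨f, f1, f2, f3⟩
    have h1 := Pool.Agent.Q19.SU.bad_ge ht0 hcon hD hD' hj.1.1 hAB hn
      (f := f) ⟨f1, f2, f3⟩
    exact Pool.Agent.Q19.SU.fin_ge (Pool.Agent.Q19.SU.bad6_finite
      (Pool.Agent.Y729.CF.CV_ne hD')) (by linarith) h1

end Pool.Agent.Results.MP_4a0cc8_nt.AllInvariantsAllLevels
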