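import Pool.Agent.TH894.NJ7
import Pool.Agent.TH894.NJ10

/-!
# MP_4a0cc8_nt: congruences over number fields of curves obtained by few changes of digits

Let `b ≥ 2` be a base. Take two numbers `N 0`, `N 1` with `K 0`, `K 1` digits in base `b`, prescribe for every position a new
digit, choose `r i` of the `K i ≥ 2 r i` positions and put the new digits there. This gives the numbers `s` and `t`. Let
`E : y² = x³ + (u s + u₀) x + (v t + v₀)` with arbitrary integers `u, v ≠ 0`, `u₀`, `v₀`, `|u|, |v| ≤ y`.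

1. For all but a proportion `ε` of the choices of the positions `E` is an elliptic curve, and there are two primes `q > y` such that
   for every number field `L`, every integer `n` with a prime factor `l ≥ 3`, `l > [L : ℚ]`, `l ≠ q`, and every elliptic
   curve `E'` over `ℚ`, of whatever height, for which `E'[n]` and `E[n]` are isomorphic over `L`, the curve `E'` has bad reduction at
   `q`. So no curve with good reduction at all primes greater than `y` is congruent to `E` over any `L` modulo any such `n`.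
2. The same for the fibres `E_t : y² = x³ + A(t)x + B(t)` of a one-parameter family with an `I₁` fibre (`4A³ + 27B²` has
   an irreducible factor of multiplicity one) at the integers `t` obtained by changing `r` digits of a number.
3. Let `E'_t : y² = x³ + A'(t)x + B'(t)` be any second family, which may be constant (one fixed curve `E₀`). For all but a proportion
   `ε` of the pairs of choices of the positions `E_s[n]` and `E'_t[n]` are not isomorphic over any number field `L`, if `n` has a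
   prime factor `l ≥ 3`, `l > [L : ℚ]`.

Here `y` may be as large as `exp (c r)`, and in 3 the number of the changed digits may be a constant depending on `ε` and the families
while the number of all digits tends to infinity, so that the curves form extremely sparse sets.

Proof. Assembled from the starting library `TH894.NJ5` - `NJ7`, `NJ10`: a prime `q ≥ 5` which divides `4A³ + 27B²` exactly once has the
property in 1 (inertia acts by transvections on `E[l]` and trivially on `E'[l]` if `E'` has good reduction; a power `σ ^ j`, `j < l`, fixes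
`L`), and such primes `q > y` are found for almost all choices by Mertens' theorem and second moments over the choices.
-/

set_option autoImplicit false

namespace Pool.Agent.Results.MP_4a0cc8_nt.FewDigitPartners

open Finset Polynomial
open scoped Classical

/-- The curve `y² = x³ + Ax + B` over `ℚ`. -/
def curve (A B : ℤ) : WeierstrassCurve ℚ := ⟨0, 0, 0, A, B⟩

/-- The group of its points over the algebraic closure of `ℚ`. -/
abbrev Points (A B : ℤ) : Type := ((curve A B).baseChange (AlgebraicClosure ℚ)).toAffine.Point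

/-- The action of an automorphism `σ` of the algebraic closure on the points. -/
noncomputable def galois (A B : ℤ) (σ : AlgebraicClosure ℚ ≃ₐ[ℚ] AlgebraicClosure ℚ) :
    Points A B →+ Points A B :=
  WeierstrassCurve.Affine.Point.map
    (σ : AlgebraicClosure ℚ →ₐ[ℚ] AlgebraicClosure ℚ)

/-- The `n`-torsion of `y² = x³ + Ax + B` and that of `y² = x³ + A'x + B'` are isomorphic as modules over the Galois group of the
field `L`: some map between the groups of points restricts to a bijective additive map of the `n`-torsion which commutes with all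
automorphisms of the algebraic closure which fix `L`. -/
def CongruentOver (L : IntermediateField ℚ (AlgebraicClosure ℚ)) (n : ℕ) (A B A' B' : ℤ) : Prop :=
  ∃ f : Points A B → Points A' B', (∀ P Q, n • P = 0 → n • Q = 0 → f (P + Q) = f P + f Q) ∧
    Set.BijOn f {P | n • P = 0} {Q | n • Q = 0} ∧
    ∀ σ ∈ L.fixingSubgroup, ∀ P : Points A B, n • P = 0 → f (galois A B σ P) = galois A' B' σ (f P)

/-- The discriminant, up to the factor `-16`. -/
def disc (A B : ℤ) : ℤ := 4 * A ^ 3 + 27 * B ^ 2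

/-- The elliptic curve `y² = x³ + Ax + B` has bad reduction at the prime `q ≥ 5`: `q` divides the discriminants of all its integral
models `y² = x³ + u⁴Ax + u⁶B`, `u ∈ ℚ`, `u ≠ 0`. -/
def BadAt (q : ℕ) (A B : ℤ) : Prop :=
  5 ≤ q ∧ ∀ A' B' : ℤ, (∃ u : ℚ, u ≠ 0 ∧ (A' : ℚ) = u ^ 4 * A ∧ (B' : ℚ) = u ^ 6 * B) → (q : ℤ) ∣ disc A' B'

/-- `n` has a prime factor `l ≥ 3`, `l > [L : ℚ]`, `l ≠ q`. -/
def Large (L : IntermediateField ℚ (AlgebraicClosure ℚ)) (q n : ℕ) : Prop :=
  ∃ l : ℕ, l.Prime ∧ 3 ≤ l ∧ Module.finrank ℚ L < l ∧ q ≠ l ∧ l ∣ n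

/-- `E : y² = x³ + Ax + B` is an elliptic curve, and there are two primes `q > y` such that for all number fields `L` and all
`n` with a prime factor `l ≥ 3`, `l > [L : ℚ]`, `l ≠ q`, all the elliptic curves `E'` over `ℚ` for which `E'[n]` is isomorphic to `E[n]`
over `L` have bad reduction at `q`. -/
def TwoForced (y : ℕ) (A B : ℤ) : Prop :=
  disc A B ≠ 0 ∧ ∃ q₁ q₂ : ℕ, y < q₁ ∧ q₁ < q₂ ∧ q₁.Prime ∧ q₂.Prime ∧ ∀ q : ℕ, q = q₁ ∨ q = q₂ →
    ∀ L : IntermediateField ℚ (AlgebraicClosure ℚ), FiniteDimensional ℚ L → ∀ n : ℕ, Large L q n →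
      ∀ A' B' : ℤ, CongruentOver L n A B A' B' → BadAt q A' B'

/-- The two curves are not congruent over any number field `L` modulo any `n` with a prime factor `l ≥ 3`, `l > [L : ℚ]`. -/
def NotCongruentOver (A B A' B' : ℤ) : Prop :=
  ∀ L : IntermediateField ℚ (AlgebraicClosure ℚ), FiniteDimensional ℚ L → ∀ n l : ℕ, l.Prime → 3 ≤ l →
    Module.finrank ℚ L < l → l ∣ n → ¬ CongruentOver L n A B A' B'

/-- The digit number `i` (counted from the right, beginning with `0`) of `n` in base `b`. -/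
def digit (b i n : ℕ) : ℕ := n / b ^ i % b

/-- The number which arises from the number `N` with at most `K` digits in base `b`, if for every `i ∈ S`
the digit number `i` is replaced by `f i`. -/
def change (b K N : ℕ) (f : ℕ → ℕ) (S : Finset ℕ) : ℕ :=
  ∑ i ∈ range K, (if i ∈ S then f i else digit b i N) * b ^ i

/-- Numbers `N 0`, `N 1` with at most `K 0`, `K 1` digits in base `b`, new digits `f 0`, `f 1` for all positions, different
from the digits of `N 0`, `N 1`, and numbers `r 0`, `r 1` of the positions to be chosen, at least `(log y) / c` and at most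
half of all the positions. -/
structure Data (b : ℕ) (c : ℝ) (y : ℕ) where
  /-- the numbers of the positions to be chosen -/
  r : Fin 2 → ℕ
  /-- the numbers of all positions -/
  K : Fin 2 → ℕ
  /-- the original numbers -/
  N : Fin 2 → ℕ
  /-- the new digits -/
  f : Fin 2 → ℕ → ℕ
  /-- the factors -/
  u : Fin 2 → ℤ
  /-- the constant terms -/
  u₀ : Fin 2 → ℤ
  le_K : ∀ i, 2 * r i ≤ K i
  log_le : ∀ i, Real.log y ≤ c * r i
  lt_pow : ∀ i, N i < b ^ K i
  new : ∀ i j, f i j < b ∧ f i j ≠ digit b j (N i)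
  ne_zero : ∀ i, u i ≠ 0
  abs_le : ∀ i, |u i| ≤ y

namespace Data

variable {b y : ℕ} {c : ℝ} (D : Data b c y)

/-- The pairs of sets of positions which can be chosen. -/
def choices : Finset (Fin 2 → Finset ℕ) :=
  Fintype.piFinset fun i => powersetCard (D.r i) (range (D.K i))

/-- The coefficients of the curve `y² = x³ + (coef 0) x + coef 1` which belongs to the chosen sets of positions. -/
def coef (S : Fin 2 → Finset ℕ) (i : Fin 2) : ℤ :=
  D.u i * (change b (D.K i) (D.N i) (D.f i) (S i) : ℕ) + D.u₀ i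

lemma card_choices : (D.choices.card : ℝ) = ∏ i, ((D.K i).choose (D.r i) : ℝ) := by
  rw [choices, Fintype.card_piFinset, Nat.cast_prod]
  exact prod_congr rfl fun i _ => by rw [card_powersetCard, card_range]

end Data

lemma disc_ne {q : ℕ} {A B : ℤ} (h : Pool.Agent.W275.FM.Ex q A B) : disc A B ≠ 0 := by
  intro h0
  apply h.2.2.2
  have h1 : Pool.Agent.W275.FM.dsc A B = 0 := h0
  rw [h1]
  exact dvd_zero _

lemma forced {y : ℕ} {A B : ℤ} (h : Pool.Agent.TH894.NJ.Two y A B) : TwoForced y A B := by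
  obtain ⟨q₁, q₂, hy, hlt, x1, x2⟩ := h
  refine ⟨disc_ne x1, q₁, q₂, hy, hlt, x1.1, x2.1, ?_⟩
  rintro q hq L hL n ⟨l, hl, hl3, hlL, hql, hln⟩ A' B' hC
  have hEx : Pool.Agent.W275.FM.Ex q A B := by
    rcases hq with rfl | rfl
    · exact x1
    · exact x2
  exact (Pool.Agent.TH894.NJ.bad_of_iso hEx hl hl3 hql hln L.fixingSubgroup
    (fun σ => Pool.Agent.TH894.NJ.pigeon L l hlL σ) hC).2

lemma notCongruent {A B A' B' : ℤ} (h : Pool.Agent.TH894.NJ.Two2 A B A' B') : NotCongruentOver A B A' B' := by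
  obtain ⟨q₁, q₂, hlt, x1, x2, z1, z2⟩ := h
  intro L hL n l hl hl3 hlL hln hC
  by_cases hq : q₁ = l
  · exact Pool.Agent.TH894.NJ.no_iso A B A' B' q₂ l n x2 z2 hl hl3 (by omega) hln L.fixingSubgroup
      (fun σ => Pool.Agent.TH894.NJ.pigeon L l hlL σ) hC
  · exact Pool.Agent.TH894.NJ.no_iso A B A' B' q₁ l n x1 z1 hl hl3 hq hln L.fixingSubgroup
      (fun σ => Pool.Agent.TH894.NJ.pigeon L l hlL σ) hC

/-- **Congruences over number fields of elliptic curves whose coefficients are obtained by few changes of digits.** -/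
theorem result :
    (∀ b : ℕ, 2 ≤ b → ∀ ε : ℝ, 0 < ε → ∃ c : ℝ, 0 < c ∧ ∃ y₀ : ℕ, ∀ y : ℕ, y₀ ≤ y → ∀ D : Data b c y,
      ((D.choices.filter fun S => ¬ TwoForced y (D.coef S 0) (D.coef S 1)).card : ℝ) ≤ ε * D.choices.card) ∧
    (∀ b : ℕ, 2 ≤ b → ∀ A B P : ℤ[X], Irreducible P → 0 < P.natDegree → P ∣ 4 * A ^ 3 + 27 * B ^ 2 →
      ¬ P ^ 2 ∣ 4 * A ^ 3 + 27 * B ^ 2 → ∀ ε : ℝ, 0 < ε → ∃ c : ℝ, 0 < c ∧ ∃ y₀ : ℕ, ∀ y : ℕ, y₀ ≤ y →
      ∀ r K : ℕ, 2 * r ≤ K → Real.log y ≤ c * r → ∀ N : ℕ, N < b ^ K →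
      ∀ f : ℕ → ℕ, (∀ j, f j < b ∧ f j ≠ digit b j N) →
      (((powersetCard r (range K)).filter fun S =>
        ¬ TwoForced y (A.eval (change b K N f S : ℤ)) (B.eval (change b K N f S : ℤ))).card : ℝ) ≤
        ε * K.choose r) ∧
    ∀ b b' : ℕ, 2 ≤ b → 2 ≤ b' → ∀ A B P A' B' : ℤ[X], Irreducible P → 0 < P.natDegree → P ∣ 4 * A ^ 3 + 27 * B ^ 2 →
      ¬ P ^ 2 ∣ 4 * A ^ 3 + 27 * B ^ 2 → 4 * A' ^ 3 + 27 * B' ^ 2 ≠ 0 → ∀ ε : ℝ, 0 < ε → ∃ C : ℕ,
      ∀ r K r' K' : ℕ, C ≤ r → C ≤ r' → 2 * r ≤ K → 2 * r' ≤ K' →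
      ∀ N : ℕ, N < b ^ K → ∀ f : ℕ → ℕ, (∀ j, f j < b ∧ f j ≠ digit b j N) →
      ∀ N' : ℕ, N' < b' ^ K' → ∀ f' : ℕ → ℕ, (∀ j, f' j < b' ∧ f' j ≠ digit b' j N') →
      (((powersetCard r (range K) ×ˢ powersetCard r' (range K')).filter fun S =>
        ¬ NotCongruentOver (A.eval (change b K N f S.1 : ℤ)) (B.eval (change b K N f S.1 : ℤ))
          (A'.eval (change b' K' N' f' S.2 : ℤ)) (B'.eval (change b' K' N' f' S.2 : ℤ))).card : ℝ) ≤
        ε * (K.choose r * K'.choose r') := by
  refine ⟨fun b hb ε hε => ?_, fun b hb A B P hP hd hPD hP2 ε hε => ?_, fun b b' hb hb' A B P A' B' hP hd hPD hP2 hD' ε hε => ?_⟩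
  · obtain ⟨c, hc, y₀, h⟩ := Pool.Agent.TH894.NJ.two_primes b hb ε hε
    refine ⟨c, hc, y₀, fun y hy D => ?_⟩
    rw [D.card_choices]
    refine le_trans (Nat.cast_le.2 (card_le_card ?_)) (h y hy (D.u 0) (D.u 1) (D.u₀ 0) (D.u₀ 1) (D.ne_zero 0) (D.ne_zero 1) (D.abs_le 0)
      (D.abs_le 1) D.r D.K D.le_K D.log_le D.N D.lt_pow D.f D.new)
    intro S hS
    rw [mem_filter] at hS ⊢
    exact ⟨hS.1, fun hR => hS.2 (forced hR)⟩
  · obtain ⟨c, hc, y₀, h⟩ := Pool.Agent.TH894.NJ.two_family b hb A B P hP hd hPD hP2 ε hε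
    refine ⟨c, hc, y₀, fun y hy r K hrK hr N hN f hf => ?_⟩
    refine le_trans (Nat.cast_le.2 (card_le_card ?_)) (h y hy r K hrK hr N hN f hf)
    intro S hS
    rw [mem_filter] at hS ⊢
    exact ⟨hS.1, fun hR => hS.2 (forced hR)⟩
  · obtain ⟨C, h⟩ := Pool.Agent.TH894.NJ.pairs_family b b' hb hb' A B P A' B' hP hd hPD hP2 hD' ε hε
    refine ⟨C, fun r K r' K' hr hr' hrK hrK' N hN f hf N' hN' f' hf' => ?_⟩
    refine le_trans (Nat.cast_le.2 (card_le_card ?_)) (h r K r' K' hr hr' hrK hrK' N hN f hf N' hN' f' hf')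
    intro S hS
    rw [mem_filter] at hS ⊢
    exact ⟨hS.1, fun hR => hS.2 (notCongruent hR)⟩

end Pool.Agent.Results.MP_4a0cc8_nt.FewDigitPartners
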