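import Pool.Agent.Y673.CB.Final
import Pool.Agent.Q327.MF.Field

/-!
# MP_4a0cc8_nt: few members of a family with any number of parameters are congruent to a given curve
modulo some large number

Let `d`, `r`, `D` and `ε > 0` be given.  There is `n₀` such that for every number field `K` of degree `d`
and every family of elliptic curves over `K` with `r` parameters, given by its invariant `F / G`, `F`, `G`
polynomials over `K` of total degree at most `D`, `F / G` not constant, there are `C`, `κ` with the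
following property.  Let `E₀ : y² = x³ + A₀x + B₀` be ANY elliptic curve over `K`, `A₀`, `B₀` integral, and
let `S_1, ..., S_r` be ANY finite sets of elements of `K` of height at most `H`, with at least `m`
elements each.  Then at most

  `C |N(4A₀³ + 27B₀²)| ^ κ H ^ ε |S_1| ⋯ |S_r| / m`

points `z ∈ S_1 × ⋯ × S_r` with `G(z) ≠ 0` exist such that some elliptic curve `E` over `K` with invariant
`F(z)/G(z)` satisfies `E[n] ≅ E₀[n]` for some integer `n ≥ n₀`.

So in a family with `r` parameters the conclusion of Q1 (and more: there is no congruence at all, also for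
all twists of the members) holds, with `n₀` independent of `E₀`, for all but `O(H ^ ε |S| ^ (r - 1))` of
the `|S| ^ r` members with parameters in a set `S`.  The exponent `r - 1` is the best possible, as `E₀` can
be the member of the family along a hypersurface.

The starting file `FewPartnersAllLevels` counts all curves with invariant of height at most `X`; the proof
combines it with a bound for the heights of the values of `F / G` and with the Schwartz-Zippel lemma for the
hypersurfaces `F = j G`.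
-/

set_option autoImplicit false

open WeierstrassCurve NumberField
open scoped Classical

namespace Pool.Agent.Results.MP_4a0cc8_nt.PartnersInFamilies

section
variable {K : Type} [Field K]

/-- The curve `y² = x³ + Ax + B` over `K`. -/
def curve (A B : K) : WeierstrassCurve K := ⟨0, 0, 0, A, B⟩

/-- The group of its points over the algebraic closure of `K`. -/
abbrev Points (A B : K) : Type := ((curve A B).baseChange (AlgebraicClosure K)).toAffine.Point

/-- The action of a `K`-automorphism `σ` of the algebraic closure on the points. -/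
noncomputable def galois (A B : K) (σ : AlgebraicClosure K ≃ₐ[K] AlgebraicClosure K) :
    Points A B →+ Points A B :=
  WeierstrassCurve.Affine.Point.map (σ : AlgebraicClosure K →ₐ[K] AlgebraicClosure K)

/-- The `n`-torsion of `y² = x³ + Ax + B` and that of `y² = x³ + A'x + B'` are isomorphic as Galois
modules: some map between the groups of points restricts to a bijective additive map of the
`n`-torsion which commutes with the Galois group. -/
def Congruent (n : ℕ) (A B A' B' : K) : Prop :=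
  ∃ f : Points A B → Points A' B', (∀ P Q, n • P = 0 → n • Q = 0 → f (P + Q) = f P + f Q) ∧
    Set.BijOn f {P | n • P = 0} {Q | n • Q = 0} ∧
    ∀ (σ : AlgebraicClosure K ≃ₐ[K] AlgebraicClosure K) (P : Points A B), n • P = 0 →
      f (galois A B σ P) = galois A' B' σ (f P)

/-- The invariant of `y² = x³ + Ax + B`. -/
noncomputable def jInvariant (A B : K) : K := 6912 * A ^ 3 / (4 * A ^ 3 + 27 * B ^ 2)

/-- `j` is the invariant of an elliptic curve over `K` which is congruent to `y² = x³ + A₀x + B₀` modulo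
some `n ≥ n₀`. -/
def Partner (n₀ : ℕ) (A₀ B₀ j : K) : Prop :=
  ∃ A B : K, 4 * A ^ 3 + 27 * B ^ 2 ≠ 0 ∧ jInvariant A B = j ∧ ∃ n : ℕ, n₀ ≤ n ∧ Congruent n A B A₀ B₀

end

/-- isomorphic curves have the same invariant -/
theorem inv_iso {K : Type} [Field K] {A B A' B' : K}
    (h : Pool.Agent.Y673.CB.IsoC A B A' B') : jInvariant A' B' = jInvariant A B := by
  obtain ⟨t, ht, rfl, rfl⟩ := h
  have ht12 : t ^ 12 ≠ 0 := pow_ne_zero _ ht
  unfold jInvariant
  have h1 : 6912 * (t ^ 4 * A) ^ 3 = t ^ 12 * (6912 * A ^ 3) := by ring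
  have h2 : 4 * (t ^ 4 * A) ^ 3 + 27 * (t ^ 6 * B) ^ 2 = t ^ 12 * (4 * A ^ 3 + 27 * B ^ 2) := by ring
  rw [h1, h2, mul_div_mul_left _ _ ht12]

/-- **Few members of a family are congruent to a given curve modulo some `n ≥ n₀`.** -/
theorem result (d r D : ℕ) (ε : ℝ) (hε : 0 < ε) : ∃ n₀ : ℕ,
    ∀ (K : Type) [Field K] [NumberField K], Module.finrank ℚ K = d →
    ∀ F G : MvPolynomial (Fin r) K, F.totalDegree ≤ D → G.totalDegree ≤ D →
      (∀ j : K, F ≠ MvPolynomial.C j * G) → ∃ C κ : ℝ,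
      ∀ A₀ B₀ : 𝓞 K, 4 * A₀ ^ 3 + 27 * B₀ ^ 2 ≠ 0 → ∀ H : ℝ, 1 ≤ H →
      -- finite sets `S_i` of at least `m` elements of `K` of height at most `H`
      ∀ (S : Fin r → Finset K) (m : ℕ), 1 ≤ m → (∀ i, m ≤ (S i).card) →
        (∀ i, ∀ x ∈ S i, Height.mulHeight₁ x ≤ H) →
        (Set.ncard {z : Fin r → K | (∀ i, z i ∈ S i) ∧ MvPolynomial.eval z G ≠ 0 ∧
          Partner n₀ (A₀ : K) (B₀ : K) (MvPolynomial.eval z F / MvPolynomial.eval z G)} : ℝ) ≤
          C * |((Algebra.norm ℤ (4 * A₀ ^ 3 + 27 * B₀ ^ 2) : ℤ) : ℝ)| ^ κ * H ^ ε *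
            ((∏ i, ((S i).card : ℝ)) / m) := by
  set k : ℕ := 2 * ((D + 1) ^ r * (r * D)) with hk
  have hk0 : (0 : ℝ) < (k : ℝ) + 1 := by positivity
  set ε' : ℝ := ε / ((k : ℝ) + 1) with hε'
  have hε'0 : 0 < ε' := div_pos hε hk0
  obtain ⟨n₀, h⟩ := Pool.Agent.Y673.CB.few_all d hε'0
  refine ⟨n₀, fun K _ _ hK F G hF hG hind => ?_⟩
  obtain ⟨C, κ, hC, -, h'⟩ := h K hK
  obtain ⟨A, hA, hval⟩ := Pool.Agent.Q327.MF.height_quot F G hF hG
  refine ⟨C * A ^ ε' * D, κ, fun A₀ B₀ h0 H hH S m hm1 hm hS => ?_⟩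
  have hA0 : 0 ≤ A := zero_le_one.trans hA
  have hH0 : 0 ≤ H := zero_le_one.trans hH
  set T : Set (Fin r → K) := {z : Fin r → K | (∀ i, z i ∈ S i) ∧ MvPolynomial.eval z G ≠ 0 ∧
          Partner n₀ (A₀ : K) (B₀ : K) (MvPolynomial.eval z F / MvPolynomial.eval z G)} with hT
  have hTfin : T.Finite := ((Fintype.piFinset S).finite_toSet).subset fun z hz =>
    Finset.mem_coe.2 (Fintype.mem_piFinset.2 hz.1)
  set J : Finset K := hTfin.toFinset.image fun z => MvPolynomial.eval z F / MvPolynomial.eval z G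
    with hJ
  have hJP : ∀ j ∈ J, Height.mulHeight₁ j ≤ A * H ^ k ∧ Partner n₀ (A₀ : K) (B₀ : K) j := by
    intro j hj
    obtain ⟨z, hz, rfl⟩ := Finset.mem_image.1 hj
    have hz' := hTfin.mem_toFinset.1 hz
    exact ⟨hval H hH z fun i => hS i _ (hz'.1 i), hz'.2.2⟩
  -- a curve for every invariant
  have hex : ∀ j : K, ∃ e : K × K, j ∈ J → 4 * e.1 ^ 3 + 27 * e.2 ^ 2 ≠ 0 ∧ jInvariant e.1 e.2 = j ∧
      ∃ n : ℕ, n₀ ≤ n ∧ Congruent n e.1 e.2 (A₀ : K) (B₀ : K) := by
    intro j
    by_cases hj : j ∈ J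
    · obtain ⟨A, B, h1, h2, h3⟩ := (hJP j hj).2
      exact ⟨(A, B), fun _ => ⟨h1, h2, h3⟩⟩
    · exact ⟨(0, 0), fun hj' => absurd hj' hj⟩
  choose e he using hex
  have hinj : Set.InjOn e (J : Set K) := by
    intro j hj j' hj' hjj
    rw [← (he j hj).2.1, ← (he j' hj').2.1, hjj]
  have hX1 : 1 ≤ A * H ^ k := one_le_mul_of_one_le_of_one_le hA (one_le_pow₀ hH)
  have hcard := h' A₀ B₀ h0 (A * H ^ k) hX1 (J.image e) (by
    intro x hx
    obtain ⟨j, hj, rfl⟩ := Finset.mem_image.1 hx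
    obtain ⟨h2, h3, n, h4, f, h5, h6, h7⟩ := he j hj
    refine ⟨?_, h2, n, h4, f, h5, h6, h7⟩
    have h8 : Pool.Agent.Y673.Loc.jv (e j).1 (e j).2 = j := h3
    rw [h8]
    exact (hJP j hj).1) (by
    intro x hx x' hx' hiso
    obtain ⟨j, hj, rfl⟩ := Finset.mem_image.1 hx
    obtain ⟨j', hj', rfl⟩ := Finset.mem_image.1 hx'
    have h8 := inv_iso hiso
    rw [(he j hj).2.1, (he j' hj').2.1] at h8
    rw [h8])
  rw [Finset.card_image_of_injOn hinj, Nat.cast_natAbs, Int.cast_abs] at hcard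
  have hcount := Pool.Agent.Q327.MF.count_field F G hF hG hind S hm J hTfin.toFinset (fun z hz => by
    have hz' := hTfin.mem_toFinset.1 hz
    exact ⟨hz'.1, hz'.2.1, Finset.mem_image.2 ⟨z, hz, rfl⟩⟩)
  rw [← Set.ncard_eq_toFinset_card T hTfin] at hcount
  have hmpos : (0 : ℝ) < m := by exact_mod_cast hm1
  have hcount' : (m : ℝ) * (T.ncard : ℝ) ≤ (J.card : ℝ) * (D * ∏ i, ((S i).card : ℝ)) := by
    exact_mod_cast hcount
  set Nd : ℝ := |((Algebra.norm ℤ (4 * A₀ ^ 3 + 27 * B₀ ^ 2) : ℤ) : ℝ)| ^ κ with hNd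
  have hNd0 : 0 ≤ Nd := Real.rpow_nonneg (abs_nonneg _) _
  have hXe : (A * H ^ k) ^ ε' ≤ A ^ ε' * H ^ ε := by
    rw [Real.mul_rpow hA0 (pow_nonneg hH0 _), ← Real.rpow_natCast, ← Real.rpow_mul hH0]
    apply mul_le_mul_of_nonneg_left _ (Real.rpow_nonneg hA0 _)
    apply Real.rpow_le_rpow_of_exponent_le hH
    rw [hε', mul_div_assoc', div_le_iff₀ hk0]
    nlinarith
  have hprod : (0 : ℝ) ≤ D * ∏ i, ((S i).card : ℝ) :=
    mul_nonneg (Nat.cast_nonneg _) (Finset.prod_nonneg fun _ _ => Nat.cast_nonneg _)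
  have h1 : (J.card : ℝ) ≤ C * Nd * (A ^ ε' * H ^ ε) :=
    hcard.trans (mul_le_mul_of_nonneg_left hXe (mul_nonneg hC.le hNd0))
  have h2 := hcount'.trans (mul_le_mul_of_nonneg_right h1 hprod)
  rw [← mul_div_assoc, le_div_iff₀ hmpos]
  calc (T.ncard : ℝ) * m = m * T.ncard := mul_comm _ _
    _ ≤ C * Nd * (A ^ ε' * H ^ ε) * (D * ∏ i, ((S i).card : ℝ)) := h2
    _ = C * A ^ ε' * D * Nd * H ^ ε * ∏ i, ((S i).card : ℝ) := by ring

end Pool.Agent.Results.MP_4a0cc8_nt.PartnersInFamilies
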