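import Mathlib
import Pool.Agent.Q158.RR
import Pool.Agent.Results.MP_4a0cc8_nt.PartnerWindows

/-!
# No curve whose invariant has a random height is congruent to a given curve

For `d ≥ 1` and `0 < s < 1` there is `n₀` with the following property. Let `K` be a number field of degree `d`. If the
integer `N` is given by digits or by multiples of a random real number (in the sense of `RandomReals s`), then for EVERY
elliptic curve `E₀ : y² = x³ + A₀x + B₀` over `K`, `A₀`, `B₀` integral, and all `k`, NO elliptic curve `E` over `K` with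
`|H(j(E)) - N| ≤ k` satisfies `E[n] ≅ E₀[n]` for some `n ≥ n₀`.
-/

set_option autoImplicit false

open NumberField

namespace Pool.Agent.Results.MP_4a0cc8_nt.RandomHeights

open FewPartnersAllLevels (Congruent jInvariant)
open PartnerWindows (Partners partners_count)

/-- No elliptic curve `y² = x³ + Ax + B` over `K` whose invariant has a height that differs from `N` by at most `k` is
congruent to `y² = x³ + A₀x + B₀` modulo some `n ≥ n₀`. -/
def Good {K : Type} [Field K] [NumberField K] (n₀ : ℕ) (A₀ B₀ : K) (k N : ℕ) : Prop :=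
  ∀ A B : K, 4 * A ^ 3 + 27 * B ^ 2 ≠ 0 → |Height.mulHeight₁ (jInvariant A B) - (N : ℝ)| ≤ k →
    ∀ n : ℕ, n₀ ≤ n → ¬ Congruent n A B A₀ B₀

/-- the nonsingular equations `y² = x³ + A₀x + B₀` with integral coefficients -/
def Curves (K : Type) [Field K] [NumberField K] : Type := {z : 𝓞 K × 𝓞 K // 4 * z.1 ^ 3 + 27 * z.2 ^ 2 ≠ 0}

/-- **Theorem.** Let `d` be a natural number and `0 < s < 1`. There is `n₀` such that for all number fields `K` of degree
`d`, in the sense of `RandomReals s` (windows of digits in all bases, and integers near the multiples `α v_k`, for random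
real numbers `α`, with Hausdorff dimensions and measures of the exceptional sets): for EVERY elliptic curve
`E₀ : y² = x³ + A₀x + B₀`, `A₀`, `B₀` in the ring of integers of `K`, and all `k` at once, no elliptic curve over `K` whose
invariant has a height that differs from `N` by at most `k` is congruent to `E₀` modulo some `n ≥ n₀`. -/
theorem result (d : ℕ) (s : ℝ) (hs : 0 < s) (hs1 : s < 1) : ∃ n₀ : ℕ,
    ∀ (K : Type) [Field K] [NumberField K], Module.finrank ℚ K = d →
      Pool.Agent.Q21.DW.RandomReals s
        (fun (p : Curves K × ℕ) (N : ℕ) => Good n₀ (p.1.1.1 : K) (p.1.1.2 : K) p.2 N) := by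
  obtain ⟨n₀, h⟩ := partners_count d s hs
  refine ⟨n₀, fun K _ _ hK => ?_⟩
  have hcnt0 : Countable K := (Module.finBasis ℚ K).equivFun.injective.countable
  have hcnt1 : Countable (𝓞 K) := (RingOfIntegers.coe_injective (K := K)).countable
  have hcnt : Countable (Curves K) := by
    unfold Curves
    infer_instance
  refine Pool.Agent.Q158.RR.mono (Pool.Agent.Q158.RR.random
    (fun z : Curves K => Partners n₀ (z.1.1 : K) (z.1.2 : K)) (fun _ x => Height.mulHeight₁ x) s hs.le hs1
    fun z ε hε => ?_) id fun p N h1 => ?_
  · obtain ⟨C, hC, h2⟩ := h K hK z.1.1 z.1.2 z.2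
    refine ⟨C, fun X hX => ⟨(h2 X hX).1, (h2 X hX).2.trans ?_⟩⟩
    exact mul_le_mul_of_nonneg_left (Real.rpow_le_rpow_of_exponent_le hX (by linarith)) hC
  · intro A B hAB hw n hn hcon
    exact absurd (h1 (jInvariant A B) ⟨A, B, hAB, rfl, n, hn, hcon⟩) (not_lt.2 hw)

end Pool.Agent.Results.MP_4a0cc8_nt.RandomHeights
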